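import Pool.Agent.helper16.EXT.Spec3T
import Pool.Agent.helper9.EXC3.ZSE

/-!
# Project EXT, row ISE: semilinearity on a collinear pair
-/

set_option autoImplicit false

open Finset

namespace Pool.Agent.EXT

open Pool.Agent.EXC

theorem ISE_ext {K : Type} [Field K] (τ : K ≃+* K) (c : Lm C6 K) (t : K) (g h : GF τ)
    (hg : IsF τ c t (g : Equiv.Perm (LT τ))) (hh : IsF τ c t (h : Equiv.Perm (LT τ))) : g = h := by
  apply Subtype.ext
  apply Equiv.ext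
  intro v
  apply Subtype.ext
  rw [hg v, hh v]

/-- the map of parameters -/
theorem ISE_phi (hGFX : GFX_stmt) {K : Type} [Field K] (τ : K ≃+* K) (hτ : ∀ x, τ (τ x) = x)
    (x : MulAut (GF τ)) (a b : Lm C6 K) (ha : ExS τ a) (hb : ExS τ b) (hI : ImF τ x a b) :
    ∃ φ : K0 τ → K0 τ, (∀ (u : K0 τ) (h : GF τ), IsF τ a (u : K) (h : Equiv.Perm (LT τ)) →
        IsF τ b (φ u : K) ((x h : GF τ) : Equiv.Perm (LT τ))) ∧
      (∀ u v, φ (u + v) = φ u + φ v) ∧ Function.Injective φ ∧ Function.Surjective φ := by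
  obtain ⟨-, hG⟩ := hGFX K τ hτ
  obtain ⟨hexa, -, hadda, huna, -⟩ := hG a ha
  obtain ⟨hexb, -, haddb, hunb, -⟩ := hG b hb
  have hX : ∀ u : K0 τ, ∃ h : GF τ, IsF τ a (u : K) (h : Equiv.Perm (LT τ)) := by
    intro u
    obtain ⟨h, hh, hx⟩ := hexa u (K0_fix τ u)
    exact ⟨⟨h, hh⟩, hx⟩
  choose X hX using hX
  have hP : ∀ u : K0 τ, ∃ t : K0 τ, IsF τ b (t : K) ((x (X u) : GF τ) : Equiv.Perm (LT τ)) := by
    intro u
    obtain ⟨t, ht, ht'⟩ := (hI (X u)).1 ⟨u, K0_fix τ u, hX u⟩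
    exact ⟨⟨t, K0_mem τ ht⟩, ht'⟩
  choose φ hφ using hP
  refine ⟨φ, ?_, ?_, ?_, ?_⟩
  · intro u h hh
    rw [ISE_ext τ a u h (X u) hh (hX u)]
    exact hφ u
  · intro u v
    have e : X (u + v) = X u * X v := by
      refine ISE_ext τ a ((u + v : K0 τ) : K) _ _ (hX _) ?_
      have := hadda (u : K) (v : K) _ _ (hX u) (hX v)
      exact this
    have h1 := hφ (u + v)
    rw [e, map_mul] at h1
    apply Subtype.ext
    exact hunb _ _ _ h1 (haddb _ _ _ _ (hφ u) (hφ v))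
  · intro u v huv
    have h1 : x (X u) = x (X v) := by
      refine ISE_ext τ b (φ u : K) _ _ (hφ u) ?_
      rw [huv]
      exact hφ v
    have h2 : X u = X v := x.injective h1
    have h3 := hX u
    rw [h2] at h3
    exact Subtype.ext (huna _ _ _ h3 (hX v))
  · intro t
    obtain ⟨h, hh, hx⟩ := hexb t (K0_fix τ t)
    have h1 : IsF τ b (t : K) ((x (x.symm ⟨h, hh⟩) : GF τ) : Equiv.Perm (LT τ)) := by
      rw [MulEquiv.apply_symm_apply]
      exact hx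
    obtain ⟨u, hu0, hu⟩ := (hI (x.symm ⟨h, hh⟩)).2 ⟨t, K0_fix τ t, h1⟩
    refine ⟨⟨u, K0_mem τ hu0⟩, ?_⟩
    have h2 : x.symm ⟨h, hh⟩ = X ⟨u, K0_mem τ hu0⟩ := ISE_ext τ a u _ _ hu (hX ⟨u, K0_mem τ hu0⟩)
    rw [h2] at h1
    exact Subtype.ext (hunb _ _ _ (hφ _) h1)

theorem ISE (hESF : ESF_stmt) (hGFX : GFX_stmt) (hUNF : UNF_stmt) (hIMF : IMF_stmt) (hTFS : TFS_stmt) (hIAD : IAD_stmt) :
    ISE_stmt := by
  intro K _ τ hτ x hx a b a2 b2 ha hb ha2 hb2 hI hI2 hT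
  obtain ⟨φ, hφ, hφa, hφi, hφs⟩ := ISE_phi hGFX τ hτ x a b ha hb hI
  obtain ⟨ψ, hψ, hψa, hψi, hψs⟩ := ISE_phi hGFX τ hτ x a2 b2 ha2 hb2 hI2
  obtain ⟨-, hES⟩ := hESF K τ hτ
  obtain ⟨-, hG⟩ := hGFX K τ hτ
  have hT' : TpS τ b b2 1 := (hIMF K τ hτ x hx).2.2.2 a a2 b b2 hb hb2 hI hI2 hT
  -- independence
  have hind : ∀ p q p' q' : K, p • b + q • b2 = p' • b + q' • b2 → p = p' ∧ q = q' := by
    intro p q p' q' h
    have hne : ¬ ∃ c : K, b2 = c • b := by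
      intro hc
      have := (hTFS K τ hτ b b2 1 hT').2.2.2.2.2.1.2 hc
      norm_num at this
    have hb0 : b ≠ 0 := (hES b hb).2.1
    have h0 : (q - q') • b2 - (p' - p) • b = 0 := by
      rw [← sub_eq_zero.2 h]
      module
    have hq : q = q' := by
      by_contra hq
      apply hne
      refine ⟨(p' - p) / (q - q'), ?_⟩
      have h1 : (q - q') • b2 = (p' - p) • b := sub_eq_zero.1 h0
      rw [div_eq_inv_mul, mul_smul, ← h1, smul_smul, inv_mul_cancel₀ (sub_ne_zero.2 hq), one_smul]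
    refine ⟨?_, hq⟩
    rw [hq, sub_self, zero_smul, zero_sub, neg_eq_zero, smul_eq_zero] at h0
    rcases h0 with h0 | h0
    · exact (sub_eq_zero.1 h0).symm
    · exact absurd h0 hb0
  have hφ0 : φ 0 = 0 := by
    have := hφa 0 0
    rw [add_zero] at this
    exact (left_eq_add.1 this)
  have hφn : ∀ u, u ≠ 0 → (φ u : K) ≠ 0 := fun u hu h => hu (hφi ((Subtype.ext h : φ u = 0).trans hφ0.symm))
  have hn0 : ∀ u : K0 τ, u ≠ 0 → (u : K) ≠ 0 := fun u hu h => hu (Subtype.ext h)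
  have hX : ∀ c : Lm C6 K, ExS τ c → ∀ u : K0 τ, ∃ h : GF τ, IsF τ c (u : K) (h : Equiv.Perm (LT τ)) := by
    intro c hc u
    obtain ⟨h, hh, hx⟩ := (hG c hc).1 u (K0_fix τ u)
    exact ⟨⟨h, hh⟩, hx⟩
  -- the element of the pair and its image
  have key : ∀ u v : K0 τ, u ≠ 0 → ∃ h : GF τ,
      IsF τ ((u : K) • a + (v : K) • a2) 1 (h : Equiv.Perm (LT τ)) ∧
      IsF τ ((φ u : K) • b + (ψ v : K) • b2) 1 ((x h : GF τ) : Equiv.Perm (LT τ)) := by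
    intro u v hu
    obtain ⟨g, hg⟩ := hX a ha u
    obtain ⟨h, hh⟩ := hX a2 ha2 v
    refine ⟨g * h, (hIAD K τ hτ a a2 hT u v (K0_fix τ u) (K0_fix τ v) (Or.inl (hn0 u hu))).2 _ _ hg hh, ?_⟩
    rw [map_mul]
    exact (hIAD K τ hτ b b2 hT' (φ u) (ψ v) (K0_fix τ _) (K0_fix τ _) (Or.inl (hφn u hu))).2 _ _ (hφ u g hg) (hψ v h hh)
  have hk : ∀ c u v : K0 τ, c ≠ 0 → u ≠ 0 → v ≠ 0 → φ (c * u) * ψ v = ψ (c * v) * φ u := by
    intro c u v hc hu hv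
    have hd : ExS τ ((u : K) • a + (v : K) • a2) :=
      (hIAD K τ hτ a a2 hT u v (K0_fix τ u) (K0_fix τ v) (Or.inl (hn0 u hu))).1
    obtain ⟨e', he', hIe⟩ := hx _ hd
    obtain ⟨h0, h01, h02⟩ := key u v hu
    obtain ⟨h1, h11, h12⟩ := key (c * u) (c * v) (mul_ne_zero hc hu)
    obtain ⟨t, -, ht⟩ := (hIe h0).1 ⟨1, map_one τ, h01⟩
    have h13 : IsF τ ((u : K) • a + (v : K) • a2) (c : K) (h1 : Equiv.Perm (LT τ)) := by
      intro w
      rw [h11 w]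
      have e1 : ((c * u : K0 τ) : K) • a + ((c * v : K0 τ) : K) • a2 = (c : K) • ((u : K) • a + (v : K) • a2) := by
        push_cast
        module
      have hXt := ((f_EXF 6 C6 K (f_NBR 6 C6 1 th ![0, 2, 3, 4, 5] f_DE6.2).1).2.2.1 _ (hES _ hd).1).1
      rw [e1, ((f_XAU 6 C6 K _ hXt).2.2.2 c).2 1 w, mul_one]
    obtain ⟨t', -, ht'⟩ := (hIe h1).1 ⟨c, K0_fix τ c, h13⟩
    have hE1 : ExS τ ((φ u : K) • b + (ψ v : K) • b2) :=
      (hIAD K τ hτ b b2 hT' (φ u) (ψ v) (K0_fix τ _) (K0_fix τ _) (Or.inl (hφn u hu))).1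
    have hE2 : ExS τ ((φ (c * u) : K) • b + (ψ (c * v) : K) • b2) :=
      (hIAD K τ hτ b b2 hT' (φ (c * u)) (ψ (c * v)) (K0_fix τ _) (K0_fix τ _) (Or.inl (hφn _ (mul_ne_zero hc hu)))).1
    have q1 := hUNF K τ hτ _ e' t _ hE1 he' h02 ht
    have q2 := hUNF K τ hτ _ e' t' _ hE2 he' h12 ht'
    have q3 : (t * (φ (c * u) : K)) • b + (t * (ψ (c * v) : K)) • b2 = (t' * (φ u : K)) • b + (t' * (ψ v : K)) • b2 := by
      have : t • ((φ (c * u) : K) • b + (ψ (c * v) : K) • b2) = t' • ((φ u : K) • b + (ψ v : K) • b2) := by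
        rw [q1, q2, smul_smul, smul_smul, mul_comm]
      rw [smul_add, smul_add, smul_smul, smul_smul, smul_smul, smul_smul] at this
      exact this
    obtain ⟨r1, r2⟩ := hind _ _ _ _ q3
    have ht0 : t ≠ 0 := by
      intro h
      rw [h, zero_smul] at q1
      exact (hES _ hE1).2.1 q1
    apply Subtype.ext
    push_cast
    apply mul_left_cancel₀ ht0
    rw [← mul_assoc, r1, ← mul_assoc, r2]
    ring
  obtain ⟨σ, s1, s2, p1, p2⟩ := ZSE_field φ ψ hφa hφi hφs hψa hψi hk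
  refine ⟨σ, ⟨φ 1, p1, ?_⟩, ψ 1, p2, ?_⟩
  · intro u h hh
    rw [← s1 u]
    exact hφ u h hh
  · intro u h hh
    rw [← s2 u]
    exact hψ u h hh

end Pool.Agent.EXT
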